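import Pool.Agent.Y120.K.Defs
import Pool.Agent.Y809.J.SD
import Pool.Agent.Y37.GF.PS

/-!
# Products over distinct shifts are linearly independent
-/

set_option autoImplicit false

open PowerSeries Pool.Agent.Y113 Pool.Agent.Y120.J
open Pool.Agent.Y120.GH (sf)
open Pool.Agent.Y37.GF (E SR mv)
open Filter Topology Set

namespace Pool.Agent.Y167.K

open Pool.Agent.Y120.K

variable {s : Bool}

theorem Js_nonneg (s : Bool) : 0 ≤ Js s := by
  unfold Js
  split_ifs <;> norm_num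

theorem z1_pos (s : Bool) {g : ℕ} (hg : 1 ≤ g) : 0 < z1 s g := by
  have h1 : (1 : ℝ) ≤ g := by exact_mod_cast hg
  have h2 := Js_nonneg s
  unfold z1
  apply one_div_pos.mpr
  linarith

theorem mv_an {Δ : ℕ} (e : Ex Δ) {y : ℝ → Fin 4 → ℝ} {z : ℝ}
    (hy : ∀ i, AnalyticAt ℝ (fun z => y z i) z) : AnalyticAt ℝ (fun z => mv (y z) e) z := by
  unfold mv
  exact Finset.analyticAt_fun_prod _ fun i _ => (hy i).pow _

theorem poly_zero' {q : Polynomial ℝ} (h : ∀ᶠ z in 𝓝[>] (0 : ℝ), q.eval z = 0) : q = 0 := by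
  obtain ⟨c, hc, hcf⟩ := (mem_nhdsGT_iff_exists_Ioo_subset).1 h
  apply Polynomial.eq_zero_of_infinite_isRoot
  exact (Set.Ioo_infinite hc).mono fun x hx => hcf hx

/-- all shifts -/
theorem multi (hu : T_U s) (hsb : T_SB s) (Δ : ℕ) (n : ℕ) :
    ∀ (ι : Type) [Fintype ι] [DecidableEq ι] (g : ι → ℕ)
    (Q : (ι → Ex Δ) → Polynomial ℝ), Fintype.card ι = n → Function.Injective g → (∀ l, 1 ≤ g l) →
    (∀ᶠ z in 𝓝[>] (0 : ℝ), ∑ b, (Q b).eval z * ∏ l, mv (ut s (g l) z) (b l) = 0) →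
    ∀ b, Q b = 0 := by
  induction n with
  | zero =>
    intro ι _ _ g Q hcard _ _ h b
    have : IsEmpty ι := Fintype.card_eq_zero_iff.1 hcard
    apply poly_zero'
    filter_upwards [h] with z hz
    rw [Fintype.sum_eq_single b (fun b' hb' => absurd (Subsingleton.elim b' b) hb')] at hz
    simpa using hz
  | succ n ih =>
    intro ι _ _ g Q hcard hg hg1 h b
    have hne : (Finset.univ : Finset ι).Nonempty := by
      rw [← Finset.card_pos, Finset.card_univ, hcard]; omega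
    obtain ⟨l₁, -, hl₁⟩ := Finset.exists_max_image Finset.univ g hne
    let e := Equiv.funSplitAt l₁ (Ex Δ)
    -- the coefficients
    let c : Ex Δ → ℝ → ℝ := fun x z => ∑ b' : {j // j ≠ l₁} → Ex Δ,
      (Q (e.symm (x, b'))).eval z * ∏ l : {j // j ≠ l₁}, mv (ut s (g l) z) (b' l)
    have hlt : ∀ l : {j // j ≠ l₁}, z1 s (g l₁) < z1 s (g l) := by
      intro l
      have h1 : g l < g l₁ := lt_of_le_of_ne (hl₁ l (Finset.mem_univ _)) fun h => l.2 (hg h)
      have h2 : (1 : ℝ) ≤ g l := by exact_mod_cast hg1 l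
      have h3 := Js_nonneg s
      unfold z1
      apply one_div_lt_one_div_of_lt (by linarith)
      have : (g l : ℝ) < g l₁ := by exact_mod_cast h1
      linarith
    have hcan : ∀ x, ∀ z ∈ Icc 0 (z1 s (g l₁)), AnalyticAt ℝ (c x) z := by
      intro x z hz
      refine Finset.analyticAt_fun_sum _ fun b' _ => ?_
      refine AnalyticAt.mul ?_ ?_
      · exact (AnalyticOnNhd.eval_polynomial (𝕜 := ℝ) _) z (Set.mem_univ _)
      · exact Finset.analyticAt_fun_prod _ fun l _ =>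
          mv_an _ fun i => (hu (g l) (hg1 l)).1 z ⟨hz.1, lt_of_le_of_lt hz.2 (hlt l)⟩ i
    have hsum : ∀ z, ∑ b, (Q b).eval z * ∏ l, mv (ut s (g l) z) (b l)
        = ∑ x, c x z * mv (ut s (g l₁) z) x := by
      intro z
      rw [← e.symm.sum_comp, Fintype.sum_prod_type]
      refine Finset.sum_congr rfl fun x _ => ?_
      rw [Finset.sum_mul]
      refine Finset.sum_congr rfl fun b' _ => ?_
      rw [Fintype.prod_eq_mul_prod_subtype_ne _ l₁]
      have h1 : e.symm (x, b') l₁ = x := by simp [e, Equiv.funSplitAt, Equiv.piSplitAt]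
      have h2 : ∀ l : {j // j ≠ l₁}, e.symm (x, b') l = b' l := by
        intro l; simp [e, Equiv.funSplitAt, Equiv.piSplitAt, l.2]
      rw [h1]
      simp only [h2]
      ring
    have hz0 := hsb (g l₁) (hg1 l₁) Δ c hcan (h.mono fun z hz => by rw [← hsum]; exact hz)
    have hI : Ioo 0 (z1 s (g l₁)) ∈ 𝓝[>] (0 : ℝ) := Ioo_mem_nhdsGT (z1_pos s (hg1 l₁))
    have key : ∀ x, ∀ b', Q (e.symm (x, b')) = 0 := by
      intro x
      refine ih {j // j ≠ l₁} (fun l => g l) (fun b' => Q (e.symm (x, b'))) ?_ ?_ ?_ ?_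
      · rw [Fintype.card_subtype_compl, hcard]; simp
      · intro a b hab; exact Subtype.ext (hg hab)
      · intro l; exact hg1 l
      · filter_upwards [hI] with z hz
        exact hz0 z hz x
    have := key (e b).1 (e b).2
    rwa [Prod.mk.eta, Equiv.symm_apply_apply] at this

/-! ### convergence -/

theorem coeff_rs (f : ℚ⟦X⟧) (n : ℕ) :
    coeff n (PowerSeries.rescale (-1 : ℚ) f) = (-1) ^ n * coeff n f := by
  rw [coeff_rescale]

theorem SDc_rs {f : ℚ⟦X⟧} (h : SDc f) : SDc (PowerSeries.rescale (-1 : ℚ) f) := by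
  obtain ⟨n, h1, h2⟩ := h
  refine ⟨n, fun m => ?_, fun m => ?_⟩
  · rw [coeff_rs]
    push_cast
    rw [abs_mul, abs_pow, abs_neg, abs_one, one_pow, one_mul]
    exact h1 m
  · obtain ⟨d, hd0, hd, hd'⟩ := h2 m
    refine ⟨d, hd0, hd, fun j hj => ?_⟩
    obtain ⟨a, ha⟩ := hd' j hj
    refine ⟨(-1) ^ j * a, ?_⟩
    rw [coeff_rs]
    push_cast
    rw [← ha]
    ring

theorem SDc_hJ (i : Fin 4) : SDc (hJ i) := by
  have hsd : T_SD := Pool.Agent.Y809.J.t_sd
  have hF : SDc FF := hsd.1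
  have hG : SDc GG := hsd.2
  fin_cases i
  · exact hF
  · exact hG
  · exact SDc.X.mul hF.deriv
  · exact (SDc.X.mul hG.deriv).add hF

theorem SDc_hS (s : Bool) (i : Fin 4) : SDc (hS s i) := by
  unfold hS
  split_ifs
  · exact SDc_hJ i
  · exact SDc_rs (SDc_hJ i)

theorem SDE_sf (s : Bool) (i : Fin 4) : SDE (fun g => sf g (hS s i)) := SDE.subst (SDc_hS s i)

theorem SDE_lg : SDE (fun g => lg g) := by
  refine ⟨8 + 1, fun g => (SDp.lg g).mono ?_⟩
  rw [pow_add, pow_one]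
  exact mul_le_mul (two_pow_le g 8) (by linarith) (by positivity) (by positivity)

theorem SDE_fJ (s : Bool) (i : Fin 4) : SDE (fun g => fJ s g i) := by
  fin_cases i
  · exact SDE_sf s 0
  · exact SDE_sf s 2
  · exact ((SDE_sf s 1).sub ((SDE_sf s 0).mul SDE_lg)).neg
  · exact ((SDE_sf s 3).sub ((SDE_sf s 2).mul SDE_lg)).neg

theorem SR_of_SDp {A : ℝ} {f : ℚ⟦X⟧} (h : SDp A f) : SR (1 / (2 * A)) f := by
  have h1 := h.one_le
  have h2 : 0 < A := by linarith
  refine SR.of_bound (A := A) (B := A) (by positivity) h2.le ?_ fun m => ?_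
  · rw [mul_one_div, div_lt_one (by positivity)]
    linarith
  · have := h.1 m
    rwa [pow_succ, mul_comm] at this

/-- a common radius for one shift -/
theorem SR_fJ (s : Bool) (g : ℕ) : ∃ r : ℝ, 0 < r ∧ ∀ i, SR r (fJ s g i) := by
  have h1 : ∀ i, ∃ r : ℝ, 0 < r ∧ SR r (fJ s g i) := by
    intro i
    obtain ⟨E, hE⟩ := SDE_fJ s i
    have h2 : (0 : ℝ) < ((g : ℝ) + 2) ^ E := by positivity
    exact ⟨_, by positivity, SR_of_SDp (hE g)⟩
  choose r hr hs using h1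
  obtain ⟨i₀, -, hi₀⟩ := Finset.exists_min_image Finset.univ r ⟨0, Finset.mem_univ _⟩
  exact ⟨r i₀, hr i₀, fun i => (hs i).mono (hr i₀).le (hi₀ i (Finset.mem_univ _))⟩

theorem SR_mon {Δ : ℕ} {g : ℕ} (e : Ex Δ) {r : ℝ} (hr : 0 ≤ r) (h : ∀ i, SR r (fJ s g i)) :
    SR r (monJ s g e) := by
  unfold monJ
  exact SR.prod _ hr fun i _ => (h i).pow hr _

theorem E_mon {Δ : ℕ} {g : ℕ} (e : Ex Δ) {r : ℝ} (hr : 0 ≤ r) (h : ∀ i, SR r (fJ s g i)) {z : ℝ}
    (hz : |z| ≤ r) : E (monJ s g e) z = mv (fun i => E (fJ s g i) z) e := by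
  unfold monJ mv
  rw [Pool.Agent.Y37.GF.E_prod _ hr (fun i _ => (h i).pow hr _) hz]
  refine Finset.prod_congr rfl fun i _ => ?_
  rw [Pool.Agent.Y37.GF.E_pow hr (h i) hz]

theorem t_lij (s : Bool) (hu : T_U s) (hsb : T_SB s) : T_LIJ s := by
  intro k Δ g hg hg1
  rw [Fintype.linearIndependent_iff]
  intro Q hQ
  -- a common radius
  choose ρ hρ0 hρ using fun l : Fin k => SR_fJ s (g l)
  obtain ⟨r, hr0, hrl⟩ : ∃ r : ℝ, 0 < r ∧ ∀ l, r ≤ ρ l := by
    rcases isEmpty_or_nonempty (Fin k) with h | h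
    · exact ⟨1, one_pos, fun l => h.elim l⟩
    · obtain ⟨i₀, -, hi₀⟩ := Finset.exists_min_image Finset.univ ρ ⟨h.some, Finset.mem_univ _⟩
      exact ⟨ρ i₀, hρ0 i₀, fun l => hi₀ l (Finset.mem_univ _)⟩
  have hf : ∀ l i, SR r (fJ s (g l) i) := fun l i => (hρ l i).mono hr0.le (hrl l)
  have hSR : ∀ b : Fin k → Ex Δ, ∀ l ∈ (Finset.univ : Finset (Fin k)), SR r (monJ s (g l) (b l)) :=
    fun b l _ => SR_mon (b l) hr0.le (hf l)
  have hSP : ∀ b : Fin k → Ex Δ, SR r (∏ l, monJ s (g l) (b l)) :=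
    fun b => SR.prod _ hr0.le (hSR b)
  have hval : ∀ z : ℝ, |z| ≤ r → ∑ b, ((Q b).map (Rat.castHom ℝ)).eval z *
      ∏ l, mv (fun i => E (fJ s (g l) i) z) (b l) = 0 := by
    intro z hz
    have h1 : E (∑ b, Q b • ∏ l, monJ s (g l) (b l)) z = 0 := by
      rw [hQ]; simp [E]
    have h2 : ∀ b : Fin k → Ex Δ, Q b • ∏ l, monJ s (g l) (b l) =
        (Q b : PowerSeries ℚ) * ∏ l, monJ s (g l) (b l) := fun b => by
      rw [Algebra.smul_def]; rfl
    simp only [h2] at h1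
    rw [Pool.Agent.Y37.GF.E_sum _ hr0.le (fun b _ => (SR.poly _ _).mul hr0.le (hSP b)) hz] at h1
    rw [← h1]
    refine Finset.sum_congr rfl fun b _ => ?_
    rw [Pool.Agent.Y37.GF.E_mul (SR.poly _ _) (hSP b) hz, Pool.Agent.Y37.GF.E_poly]
    rw [Pool.Agent.Y37.GF.E_prod _ hr0.le (hSR b) hz]
    congr 1
    · rw [Polynomial.eval_map, Polynomial.aeval_def]; rfl
    · exact Finset.prod_congr rfl fun l _ => (E_mon (b l) hr0.le (hf l) hz).symm
  have hsmall : ∀ᶠ z in 𝓝 (0 : ℝ), ∀ l, ∀ i, ut s (g l) z i = E (fJ s (g l) i) z := by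
    rw [eventually_all]
    exact fun l => (hu (g l) (hg1 l)).2.1
  have hball : ∀ᶠ z in 𝓝 (0 : ℝ), |z| ≤ r := by
    have : Metric.ball (0 : ℝ) r ∈ 𝓝 (0 : ℝ) := Metric.ball_mem_nhds _ hr0
    filter_upwards [this] with z hz
    rw [mem_ball_zero_iff, Real.norm_eq_abs] at hz
    exact hz.le
  have main := multi hu hsb Δ k (Fin k) g (fun b => (Q b).map (Rat.castHom ℝ))
    (Fintype.card_fin k) hg hg1 (by
      filter_upwards [nhdsWithin_le_nhds hsmall, nhdsWithin_le_nhds hball] with z h1 h2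
      rw [← hval z h2]
      refine Finset.sum_congr rfl fun b _ => ?_
      congr 1
      refine Finset.prod_congr rfl fun l _ => ?_
      congr 1
      exact funext (h1 l))
  intro b
  have := main b
  rwa [Polynomial.map_eq_zero] at this

end Pool.Agent.Y167.K
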